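import Pool.Agent.MP_418f02_an.I.Run
import Pool.Agent.MP_418f02_an.H.Ko

/-! The conjectured weighted bound for kernels with an integral Hoelder modulus. -/

open MeasureTheory Set
open scoped ENNReal

namespace Pool.Agent.MP_418f02_an

variable {d : ℕ}

theorem KK_mod {k : E d → ℝ} (hk : IsKer k) {Λ α : ℝ} (hΛ : 0 ≤ Λ) (hα : 0 ≤ α)
    (h : ∀ v : E d, ∫ y, |k (y + v) - k y| ≤ Λ * ‖v‖ ^ α) (v : E d) :
    ∫ y, |KK k 1 (y + v) - KK k 1 y| ≤ Λ * ‖v‖ ^ α := by
  set F : E d → ℝ → ℝ := fun y s => |((1 * s) ^ d)⁻¹ * k ((1 * s)⁻¹ • (y + v)) / s -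
    ((1 * s) ^ d)⁻¹ * k ((1 * s)⁻¹ • y) / s| with hF
  have hm : Measurable (Function.uncurry F) :=
    (((ker_term_meas hk.meas 1).comp ((measurable_fst.add_const v).prodMk measurable_snd)).sub
      (ker_term_meas hk.meas 1)).abs
  have hb : ∀ y s, 1 ≤ s → s ≤ 2 → |F y s| ≤ ((1 : ℝ) ^ d)⁻¹ + ((1 : ℝ) ^ d)⁻¹ :=
    fun y s hs _ => (abs_abs _).trans_le ((abs_sub _ _).trans
      (add_le_add (ker_term_le hk one_pos hs _) (ker_term_le hk one_pos hs _)))
  have hz : ∀ y s, 1 ≤ s → s ≤ 2 → 4 + ‖v‖ < ‖y‖ → F y s = 0 := fun y s h1 h2 hy => by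
    have := norm_sub_le (y + v) v
    rw [add_sub_cancel_right] at this
    simp only [hF]
    rw [ker_term_zero hk one_pos h1 h2 (y := y) (by linarith [norm_nonneg v]),
      ker_term_zero hk one_pos h1 h2 (y := y + v) (by linarith)]
    simp
  have hn : Nice fun y => ∫ s in (1 : ℝ)..2, F y s :=
    ⟨ker_int_meas hm, ⟨_, fun y => ker_int_le (hb y)⟩,
      ⟨4 + ‖v‖, fun y hy => ker_int_zero fun s h1 h2 => hz y s h1 h2 hy⟩⟩
  calc _ ≤ ∫ y, ∫ s in (1 : ℝ)..2, F y s := by
        refine integral_mono_of_nonneg (Filter.Eventually.of_forall fun y => abs_nonneg _)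
          hn.integrable (Filter.Eventually.of_forall fun y => ?_)
        simp only [KK]
        rw [← intervalIntegral.integral_sub (term_ii hk one_pos _) (term_ii hk one_pos _)]
        exact intervalIntegral.abs_integral_le_integral_abs one_le_two
    _ = ∫ s in (1 : ℝ)..2, ∫ y, F y s := ker_swap hm hb hz
    _ ≤ _ := by
        refine (le_abs_self _).trans (ker_int_le fun s h1 _ => ?_)
        have hs : 0 < s := one_pos.trans_le h1
        have e : ∀ y, F y s = (s ^ d)⁻¹ * |k (s⁻¹ • y + s⁻¹ • v) - k (s⁻¹ • y)| / s := fun y => by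
          simp only [hF, one_mul]
          rw [← sub_div, ← mul_sub, abs_div, abs_mul, abs_of_pos hs,
            abs_of_pos (by positivity : 0 < (s ^ d)⁻¹), smul_add]
        simp only [e]
        rw [integral_div, ker_dil (fun y => |k (y + s⁻¹ • v) - k y|) hs,
          abs_of_nonneg (div_nonneg (integral_nonneg fun _ => abs_nonneg _) hs.le)]
        refine (div_le_self (integral_nonneg fun _ => abs_nonneg _) h1).trans ((h _).trans ?_)
        refine mul_le_mul_of_nonneg_left (Real.rpow_le_rpow (norm_nonneg _) ?_ hα) hΛ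
        rw [norm_smul, norm_inv, Real.norm_of_nonneg hs.le]
        exact mul_le_of_le_one_left (norm_nonneg _) (inv_le_one_of_one_le₀ h1)

theorem modK_of {k : E d → ℝ} (hk : IsKer k) {Λ α : ℝ} (hΛ : 0 ≤ Λ) (hα : 0 < α)
    (h : ∀ v : E d, ∫ y, |k (y + v) - k y| ≤ Λ * ‖v‖ ^ α) :
    ModK k (Λ * (4 * d) ^ α) ⌈2 / α⌉₊ := fun t v hv => by
  refine (KK_mod hk hΛ hα.le h v).trans ?_
  rw [mul_div_assoc]
  refine mul_le_mul_of_nonneg_left ((Real.rpow_le_rpow (norm_nonneg _) hv hα.le).trans ?_) hΛ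
  have h1 : 2 ≤ (⌈2 / α⌉₊ : ℝ) * α := (div_le_iff₀ hα).1 (Nat.le_ceil _)
  generalize ⌈2 / α⌉₊ = N at *
  rw [Real.mul_rpow (by positivity) (by positivity), div_eq_mul_inv]
  refine mul_le_mul_of_nonneg_left ?_ (by positivity)
  rw [← Real.rpow_intCast, ← Real.rpow_mul zero_le_two, show (4 : ℝ) = 2 ^ 2 by norm_num,
    ← pow_mul, ← Real.rpow_natCast, ← Real.rpow_neg zero_le_two]
  refine Real.rpow_le_rpow_of_exponent_le one_le_two ?_
  push_cast
  nlinarith [Nat.cast_nonneg (α := ℝ) t]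

theorem shell_vol (hd : 1 ≤ d) {ρ δ : ℝ} (hδ : 0 ≤ δ) (h1 : δ ≤ ρ) (h2 : ρ + δ ≤ 3) :
    volume.real {y : E d | ρ - δ ≤ ‖y‖ ∧ ‖y‖ ≤ ρ + δ} ≤
      2 * δ * d * 3 ^ d * volume.real (Metric.ball (0 : E d) 1) := by
  have : Nonempty (Fin d) := ⟨⟨0, hd⟩⟩
  have e : {y : E d | ρ - δ ≤ ‖y‖ ∧ ‖y‖ ≤ ρ + δ} =
      Metric.closedBall 0 (ρ + δ) \ Metric.ball 0 (ρ - δ) := by
    ext y
    simp [and_comm]
  rw [e, measureReal_sdiff (Metric.ball_subset_closedBall.trans
    (Metric.closedBall_subset_closedBall (by linarith))) measurableSet_ball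
    measure_closedBall_lt_top.ne, Measure.addHaar_real_closedBall _ _ (by linarith),
    measureReal_def _ (Metric.ball 0 (ρ - δ)), Measure.addHaar_ball _ _ (by linarith : 0 ≤ ρ - δ),
    ENNReal.toReal_mul,
    ENNReal.toReal_ofReal (pow_nonneg (by linarith) _), ← measureReal_def, ← sub_mul,
    finrank_euclideanSpace_fin]
  refine mul_le_mul_of_nonneg_right ((le_abs_self _).trans ((abs_pow_sub_pow_le _ _ _).trans ?_))
    measureReal_nonneg
  rw [show ρ + δ - (ρ - δ) = 2 * δ by ring, abs_of_nonneg (by linarith),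
    abs_of_nonneg (by linarith), abs_of_nonneg (by linarith), max_eq_left (by linarith)]
  refine mul_le_mul_of_nonneg_left ((pow_le_pow_left₀ (by linarith) h2 _).trans
    (pow_le_pow_right₀ (by norm_num) (Nat.sub_le _ _))) (by positivity)

theorem kO_mod (hd : 1 ≤ d) : ∃ Λ : ℝ, 0 ≤ Λ ∧ ∀ (Ω : E d → ℝ) (M α : ℝ), Measurable Ω → 0 < M →
    (∀ x, |Ω x| ≤ M) → IsKer (kO Ω M) → 0 < α → α ≤ 1 → (∀ v : E d, ‖v‖ ≤ 1 / 2 →
      ∫ y in ann d, |Ω (‖y + v‖⁻¹ • (y + v)) - Ω (‖y‖⁻¹ • y)| ≤ M * ‖v‖ ^ α) →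
    ∀ v : E d, ∫ y, |kO Ω M (y + v) - kO Ω M y| ≤ Λ * ‖v‖ ^ α := by
  set c : ℝ := 2 * d * 3 ^ d * volume.real (Metric.ball (0 : E d) 1) with hc
  have hc0 : 0 ≤ c := by positivity
  refine ⟨1 + 2 * c + 4 * 4 ^ d, by positivity, fun Ω M α hΩ hM hb hk hα hα1 h v => ?_⟩
  have hv0 := norm_nonneg v
  have hp : 0 ≤ ‖v‖ ^ α := by positivity
  have hs : Nice fun y => kO Ω M (y + v) := by simpa using hk.nice.shift (-v)
  rcases le_total ‖v‖ (1 / 2) with hv | hv
  · set S : ℝ → Set (E d) := fun ρ => {y | ρ - ‖v‖ ≤ ‖y‖ ∧ ‖y‖ ≤ ρ + ‖v‖} with hS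
    have hSm : ∀ ρ, MeasurableSet (S ρ) := fun ρ =>
      (measurableSet_le measurable_const measurable_norm).inter
        (measurableSet_le measurable_norm measurable_const)
    have hSi : ∀ ρ, Integrable ((S ρ).indicator fun _ => (1 : ℝ)) := fun ρ =>
      (integrable_indicator_iff (hSm ρ)).2 (integrableOn_const
        ((measure_mono fun _ hy => hy.2).trans_lt (ker_ball_lt _)).ne)
    set D : E d → ℝ := fun y => |Ω (‖y + v‖⁻¹ • (y + v)) - Ω (‖y‖⁻¹ • y)| / M with hD
    have hDi : Integrable ((ann d).indicator D) := by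
      refine (integrable_indicator_iff ann_meas).2 (Measure.integrableOn_of_bounded (M := 2)
        ((measure_mono fun _ hy => hy.2).trans_lt (ker_ball_lt 2)).ne
        ((((lim_meas hΩ).comp (measurable_id.add_const v)).sub
          (lim_meas hΩ)).abs.div_const M).aestronglyMeasurable
        (Filter.Eventually.of_forall fun y => ?_))
      rw [Real.norm_of_nonneg (by positivity), div_le_iff₀ hM]
      exact (abs_sub _ _).trans (by linarith [hb (‖y + v‖⁻¹ • (y + v)), hb (‖y‖⁻¹ • y)])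
    have hpt : ∀ y, |kO Ω M (y + v) - kO Ω M y| ≤ (ann d).indicator D y +
        (S 1).indicator (fun _ => (1 : ℝ)) y + (S 2).indicator (fun _ => (1 : ℝ)) y := fun y => by
      have i0 : 0 ≤ (ann d).indicator D y := indicator_nonneg (fun _ _ => by positivity) y
      have i1 : ∀ ρ, 0 ≤ (S ρ).indicator (fun _ => (1 : ℝ)) y := fun ρ =>
        indicator_nonneg (fun _ _ => zero_le_one) y
      have n1 := abs_le.1 (abs_norm_sub_norm_le (y + v) y)
      rw [add_sub_cancel_left] at n1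
      have mixed : ¬ (y + v ∈ ann d ↔ y ∈ ann d) → 1 ≤ (ann d).indicator D y +
          (S 1).indicator (fun _ => (1 : ℝ)) y + (S 2).indicator (fun _ => (1 : ℝ)) y := fun hn => by
        have : y ∈ S 1 ∨ y ∈ S 2 := by
          simp only [hS, ann, mem_ofPred_eq] at hn ⊢
          by_contra hc
          push Not at hc
          refine hn ⟨fun ⟨a, b⟩ => ⟨?_, ?_⟩, fun ⟨a, b⟩ => ⟨?_, ?_⟩⟩
          · linarith [hc.1 (by linarith)]
          · by_contra hh
            linarith [hc.2 (by linarith)]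
          · linarith [hc.1 (by linarith)]
          · by_contra hh
            linarith [hc.2 (by linarith)]
        rcases this with h2 | h2
        · rw [indicator_of_mem h2]
          linarith [i1 2]
        · rw [indicator_of_mem h2]
          linarith [i1 1]
      by_cases a : y + v ∈ ann d <;> by_cases b : y ∈ ann d
      · rw [kO, indicator_of_mem (by exact a), indicator_of_mem (by exact b), indicator_of_mem b,
          ← sub_div, abs_div, abs_of_pos hM]
        linarith [i1 1, i1 2]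
      · rw [show kO Ω M y = 0 from indicator_of_notMem (by exact b) _, sub_zero]
        exact (hk.bdd _).trans (mixed fun e => b (e.1 a))
      · rw [show kO Ω M (y + v) = 0 from indicator_of_notMem (by exact a) _, zero_sub, abs_neg]
        exact (hk.bdd _).trans (mixed fun e => a (e.2 b))
      · rw [show kO Ω M y = 0 from indicator_of_notMem (by exact b) _,
          show kO Ω M (y + v) = 0 from indicator_of_notMem (by exact a) _, sub_zero, abs_zero]
        linarith [i1 1, i1 2]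
    refine (integral_mono_of_nonneg (Filter.Eventually.of_forall fun y => abs_nonneg _)
      ((hDi.add (hSi 1)).add (hSi 2)) (Filter.Eventually.of_forall hpt)).trans ?_
    simp only [Pi.add_apply]
    rw [integral_add (hDi.fun_add (hSi 1)) (hSi 2), integral_add hDi (hSi 1),
      integral_indicator ann_meas, integral_indicator (hSm 1), integral_indicator (hSm 2),
      setIntegral_const, setIntegral_const, smul_eq_mul, smul_eq_mul, mul_one, mul_one, hD,
      integral_div]
    have a1 := (div_le_iff₀' hM).2 (h v hv)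
    have a2 := shell_vol hd (ρ := 1) hv0 (by linarith) (by linarith)
    have a3 := shell_vol hd (ρ := 2) hv0 (by linarith) (by linarith)
    have a4 : c * ‖v‖ ≤ c * ‖v‖ ^ α :=
      mul_le_mul_of_nonneg_left (Real.self_le_rpow_of_le_one hv0 (by linarith) hα1) hc0
    have a5 : 2 * ‖v‖ * d * 3 ^ d * volume.real (Metric.ball (0 : E d) 1) = c * ‖v‖ := by
      rw [hc]
      ring
    have a6 : 0 ≤ 4 * 4 ^ d * ‖v‖ ^ α := by positivity
    simp only [hS]
    linarith
  · have a1 := ker_abs_int_le hk.meas hk.bdd hk.supp zero_le_two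
    have a2 : 1 / 2 ≤ ‖v‖ ^ α := (Real.self_le_rpow_of_le_one (by norm_num) (by norm_num)
      hα1).trans (Real.rpow_le_rpow (by norm_num) hv hα.le)
    refine (integral_mono_of_nonneg (Filter.Eventually.of_forall fun y => abs_nonneg _)
      (hs.abs.integrable.add hk.nice.abs.integrable)
      (Filter.Eventually.of_forall fun y => abs_sub _ _)).trans ?_
    simp only [Pi.add_apply]
    rw [integral_add hs.abs.integrable hk.nice.abs.integrable,
      integral_add_right_eq_self (fun y => |kO Ω M y|) v]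
    norm_num at a1
    have a3 : (0 : ℝ) < 4 ^ d := by positivity
    nlinarith [mul_nonneg hc0 hp]

theorem kb_hol (hd : 1 ≤ d) {α : ℝ} (hα : 0 < α) : ∃ C : ℝ, 0 < C ∧ ∀ (Ω : E d → ℝ) (M : ℝ),
    Measurable Ω → 0 < M → (∀ x, |Ω x| ≤ M) → IsKer (kO Ω M) → (∀ v : E d, ‖v‖ ≤ 1 / 2 →
      ∫ y in ann d, |Ω (‖y + v‖⁻¹ • (y + v)) - Ω (‖y‖⁻¹ • y)| ≤ M * ‖v‖ ^ α) →
    ∀ p : ℝ, 1 < p → KB (kO Ω M) p (C * (p * (p / (p - 1)))) := by
  obtain ⟨C₁, hC₁, h1⟩ := kb_of_atb hd
  obtain ⟨Λ, hΛ, h2⟩ := kO_mod hd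
  have hβ : 0 < min α 1 := lt_min hα one_pos
  obtain ⟨C₂, hC₂, h3⟩ := run6 hd (Λ := Λ * (4 * d) ^ min α 1) (N := ⌈2 / min α 1⌉₊)
    (by positivity) (Nat.one_le_ceil_iff.2 (by positivity))
  refine ⟨C₁ * (1 + 2 * C₂), by positivity, fun Ω M hΩ hM hb hk h p hp => ?_⟩
  have hp1 : 0 < p - 1 := sub_pos.2 hp
  have hq1 : 1 ≤ p / (p - 1) := (one_le_div hp1).2 (by linarith)
  have h4 := h2 Ω M _ hΩ hM hb hk hβ (min_le_right _ _) fun v hv => (h v hv).trans
    (mul_le_mul_of_nonneg_left (Real.rpow_le_rpow_of_exponent_ge' (norm_nonneg _) (by linarith)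
      hβ.le (min_le_left _ _)) hM.le)
  have h5 := h1 _ p _ hk hp (by positivity) (h3 _ hk.rf (modK_of hk.rf hΛ hβ fun v => by
    have := h4 (-v)
    rw [norm_neg, ← integral_neg_eq_self] at this
    simpa only [rf, neg_add] using this) (2 * (p / (p - 1))) (by linarith))
  convert h5 using 1
  ring

end Pool.Agent.MP_418f02_an
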